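import Mathlib

set_option autoImplicit false

/-! Gaussian integration by parts for polynomials. -/

namespace Pool.Agent.Zk11.LN

open Finset MeasureTheory ProbabilityTheory MvPolynomial

/-- the standard Gaussian measure on the line -/
noncomputable abbrev ga : Measure ℝ := gaussianReal 0 1

theorem integrable_pow_ga (n : ℕ) : Integrable (fun x : ℝ => x ^ n) ga := by
  have h1 : MemLp id (n : ENNReal) ga := IsGaussian.memLp_id _ _ (ENNReal.natCast_ne_top _)
  refine (h1.integrable_norm_pow').mono' (by fun_prop) ?_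
  filter_upwards with x
  simp

theorem pdf_eq (x : ℝ) : gaussianPDFReal 0 1 x = (Real.sqrt (2 * Real.pi))⁻¹ * Real.exp (-x ^ 2 / 2) := by
  rw [gaussianPDFReal_def]
  simp

theorem hasDerivAt_pdf (x : ℝ) :
    HasDerivAt (gaussianPDFReal 0 1) (-x * gaussianPDFReal 0 1 x) x := by
  have h : gaussianPDFReal 0 1 = fun x => (Real.sqrt (2 * Real.pi))⁻¹ * Real.exp (-x ^ 2 / 2) :=
    funext pdf_eq
  rw [pdf_eq, h]
  have h1 : HasDerivAt (fun x : ℝ => -x ^ 2 / 2) (-x) x := by
    have h3 := ((hasDerivAt_pow 2 x).neg).div_const 2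
    have h4 : -(((2 : ℕ) : ℝ) * x ^ (2 - 1)) / 2 = -x := by
      norm_num
      ring
    rw [h4] at h3
    exact h3
  have h2 := (h1.exp).const_mul (Real.sqrt (2 * Real.pi))⁻¹
  have h5 : (Real.sqrt (2 * Real.pi))⁻¹ * (Real.exp (-x ^ 2 / 2) * -x) =
      -x * ((Real.sqrt (2 * Real.pi))⁻¹ * Real.exp (-x ^ 2 / 2)) := by ring
  rw [h5] at h2
  exact h2

theorem int_pdf (n : ℕ) : Integrable (fun x : ℝ => x ^ n * gaussianPDFReal 0 1 x) := by
  have h := integrable_pow_ga n
  rw [ga, gaussianReal_of_var_ne_zero _ one_ne_zero,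
    integrable_withDensity_iff_integrable_smul' (measurable_gaussianPDF 0 1)
      (Filter.Eventually.of_forall fun x => gaussianPDF_lt_top)] at h
  refine h.congr ?_
  filter_upwards with x
  rw [toReal_gaussianPDF, smul_eq_mul, mul_comm]

theorem integral_ga (f : ℝ → ℝ) : ∫ x, f x ∂ga = ∫ x, f x * gaussianPDFReal 0 1 x := by
  rw [integral_gaussianReal_eq_integral_smul one_ne_zero]
  refine integral_congr_ae ?_
  filter_upwards with x
  rw [smul_eq_mul, mul_comm]

/-- `E x ^ (n + 1) = n E x ^ (n - 1)` -/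
theorem ga_succ (n : ℕ) : ∫ x, x ^ (n + 1) ∂ga = n * ∫ x, x ^ (n - 1) ∂ga := by
  rw [integral_ga, integral_ga, ← integral_const_mul]
  have h := integral_mul_deriv_eq_deriv_mul_of_integrable
    (u := fun x : ℝ => x ^ n) (u' := fun x : ℝ => (n : ℝ) * x ^ (n - 1))
    (v := gaussianPDFReal 0 1) (v' := fun x => -x * gaussianPDFReal 0 1 x)
    (fun x _ => hasDerivAt_pow n x) (fun x _ => hasDerivAt_pdf x) ?_ ?_ ?_
  · have h2 : ∫ x : ℝ, x ^ n * (-x * gaussianPDFReal 0 1 x) =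
        - ∫ x : ℝ, x ^ (n + 1) * gaussianPDFReal 0 1 x := by
      rw [← integral_neg]
      refine integral_congr_ae ?_
      filter_upwards with x
      ring
    rw [h2] at h
    rw [neg_inj.1 h]
    refine integral_congr_ae ?_
    filter_upwards with x
    ring
  · refine ((int_pdf (n + 1)).neg).congr ?_
    filter_upwards with x
    simp only [Pi.neg_apply, Pi.mul_apply]
    ring
  · refine ((int_pdf (n - 1)).const_mul (n : ℝ)).congr ?_
    filter_upwards with x
    simp only [Pi.mul_apply]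
    ring
  · exact int_pdf n

/-- the standard Gaussian measure on `ℝ³` (coordinates) -/
noncomputable abbrev Ga : Measure (Fin 3 → ℝ) := Measure.pi fun _ => ga

theorem eval_mono (u : Fin 3 → ℝ) (s : Fin 3 →₀ ℕ) (a : ℝ) :
    eval u (monomial s a) = a * ∏ i, u i ^ s i := by
  rw [eval_monomial, Finsupp.prod_fintype]
  intro i
  simp

theorem int_mono (s : Fin 3 →₀ ℕ) :
    Integrable (fun u : Fin 3 → ℝ => ∏ i, u i ^ s i) Ga :=
  Integrable.fintype_prod (f := fun i (x : ℝ) => x ^ s i) fun i => integrable_pow_ga (s i)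

theorem int_mv (p : MvPolynomial (Fin 3) ℝ) :
    Integrable (fun u : Fin 3 → ℝ => eval u p) Ga := by
  induction p using MvPolynomial.induction_on' with
  | monomial s a =>
    simp only [eval_mono]
    exact (int_mono s).const_mul a
  | add p q hp hq =>
    simp only [map_add]
    exact hp.add hq

/-- the expectation of a polynomial -/
noncomputable def ex (p : MvPolynomial (Fin 3) ℝ) : ℝ := ∫ u, eval u p ∂Ga

theorem ex_add (p q : MvPolynomial (Fin 3) ℝ) : ex (p + q) = ex p + ex q := by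
  unfold ex
  simp only [map_add]
  exact integral_add (int_mv p) (int_mv q)

theorem ex_C_mul (a : ℝ) (p : MvPolynomial (Fin 3) ℝ) : ex (C a * p) = a * ex p := by
  unfold ex
  simp only [map_mul, eval_C]
  exact integral_const_mul a _

theorem ex_mono (s : Fin 3 →₀ ℕ) (a : ℝ) :
    ex (monomial s a) = a * ∏ i, ∫ x, x ^ s i ∂ga := by
  unfold ex
  simp only [eval_mono]
  rw [integral_const_mul, integral_fintype_prod_eq_prod (f := fun i (x : ℝ) => x ^ s i)]

/-- Gaussian integration by parts -/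
theorem stein (c : Fin 3) (p : MvPolynomial (Fin 3) ℝ) : ex (X c * p) = ex (pderiv c p) := by
  induction p using MvPolynomial.induction_on' with
  | monomial s a =>
    rw [pderiv_monomial, ex_mono, X, monomial_mul, ex_mono, one_mul]
    rw [← Finset.mul_prod_erase univ (fun i => ∫ x, x ^ (Finsupp.single c 1 + s : Fin 3 →₀ ℕ) i ∂ga) (mem_univ c),
      ← Finset.mul_prod_erase univ (fun i => ∫ x, x ^ (s - Finsupp.single c 1 : Fin 3 →₀ ℕ) i ∂ga) (mem_univ c)]
    have h1 : ∀ i ∈ univ.erase c, ∫ x, x ^ (Finsupp.single c 1 + s : Fin 3 →₀ ℕ) i ∂ga =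
        ∫ x, x ^ (s - Finsupp.single c 1 : Fin 3 →₀ ℕ) i ∂ga := by
      intro i hi
      have hic : c ≠ i := fun h => (Finset.mem_erase.1 hi).1 h.symm
      simp [hic]
    rw [Finset.prod_congr rfl h1]
    have h2 : ∫ x, x ^ (Finsupp.single c 1 + s : Fin 3 →₀ ℕ) c ∂ga =
        (s c : ℝ) * ∫ x, x ^ (s - Finsupp.single c 1 : Fin 3 →₀ ℕ) c ∂ga := by
      have := ga_succ (s c)
      simp only [Finsupp.add_apply, Finsupp.single_eq_same, Finsupp.tsub_apply]
      rw [add_comm 1, this]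
    rw [h2]
    ring
  | add p q hp hq =>
    rw [mul_add, ex_add, hp, hq, map_add, ex_add]

section Shift

variable (a : Fin 3 → ℝ) (ν : ℝ)

/-- the coordinates of `a + ν u` -/
noncomputable def el (c : Fin 3) : MvPolynomial (Fin 3) ℝ := C (a c) + C ν * X c

/-- `|a + ν u| ^ 2` -/
noncomputable def qq : MvPolynomial (Fin 3) ℝ := ∑ c, el a ν c ^ 2

/-- `E |a + ν u| ^ (2 m)` -/
noncomputable def VV (m : ℕ) : ℝ := ex (qq a ν ^ m)

/-- `E (a, a + ν u) |a + ν u| ^ (2 m)` -/
noncomputable def WW (m : ℕ) : ℝ := ∑ c, a c * ex (el a ν c * qq a ν ^ m)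

theorem pderiv_el (c d : Fin 3) : pderiv c (el a ν d) = if c = d then C ν else 0 := by
  unfold el
  rw [map_add, pderiv_C, zero_add, pderiv_C_mul, pderiv_X]
  by_cases h : c = d
  · subst h
    simp
  · simp [h, Ne.symm h]

theorem pderiv_qq (c : Fin 3) : pderiv c (qq a ν) = C (2 * ν) * el a ν c := by
  unfold qq
  rw [map_sum]
  rw [Finset.sum_eq_single c]
  · rw [pow_two, Derivation.leibniz, pderiv_el, if_pos rfl]
    simp only [smul_eq_mul, map_mul]
    rw [show (C (2 : ℝ) : MvPolynomial (Fin 3) ℝ) = 2 from map_ofNat C 2]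
    ring
  · intro d _ hd
    rw [pow_two, Derivation.leibniz, pderiv_el, if_neg (Ne.symm hd)]
    simp
  · intro h
    exact absurd (mem_univ c) h

theorem pderiv_qq_pow (c : Fin 3) (m : ℕ) :
    pderiv c (qq a ν ^ m) = C (2 * ν * m) * (el a ν c * qq a ν ^ (m - 1)) := by
  rw [Derivation.leibniz_pow, pderiv_qq, nsmul_eq_mul, smul_eq_mul]
  rw [map_mul C (2 * ν) (m : ℝ), map_natCast]
  ring

theorem VV_succ (m : ℕ) : VV a ν (m + 1) = WW a ν m + ν ^ 2 * (2 * m + 3) * VV a ν m := by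
  have h1 : ∀ c, ex (el a ν c ^ 2 * qq a ν ^ m) = a c * ex (el a ν c * qq a ν ^ m) +
      ν * (ν * ex (qq a ν ^ m) + 2 * ν * m * ex (el a ν c ^ 2 * qq a ν ^ (m - 1))) := by
    intro c
    have h2 : el a ν c ^ 2 * qq a ν ^ m = C (a c) * (el a ν c * qq a ν ^ m) +
        C ν * (X c * (el a ν c * qq a ν ^ m)) := by
      nth_rewrite 1 [pow_two, el]
      ring
    rw [h2, ex_add, ex_C_mul, ex_C_mul, stein]
    congr 2
    rw [Derivation.leibniz, pderiv_el, if_pos rfl, pderiv_qq_pow]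
    rw [smul_eq_mul, smul_eq_mul]
    rw [show el a ν c * (C (2 * ν * m) * (el a ν c * qq a ν ^ (m - 1))) + qq a ν ^ m * C ν =
      C (2 * ν * m) * (el a ν c ^ 2 * qq a ν ^ (m - 1)) + C ν * qq a ν ^ m by ring]
    rw [ex_add, ex_C_mul, ex_C_mul]
    ring
  have hs : ∀ n, ∑ c, ex (el a ν c ^ 2 * qq a ν ^ n) = ex (qq a ν ^ (n + 1)) := by
    intro n
    have h3 : qq a ν ^ (n + 1) = ∑ c, el a ν c ^ 2 * qq a ν ^ n := by
      rw [pow_succ, mul_comm]
      nth_rewrite 1 [qq]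
      rw [Finset.sum_mul]
    rw [h3]
    simp only [Fin.sum_univ_three, ex_add]
  have h4 : (m : ℝ) * ex (qq a ν ^ (m - 1 + 1)) = m * ex (qq a ν ^ m) := by
    rcases Nat.eq_zero_or_pos m with h | h
    · subst h; simp
    · rw [Nat.sub_add_cancel h]
  unfold VV WW
  rw [← hs m, Finset.sum_congr rfl fun c _ => h1 c, Finset.sum_add_distrib, ← Finset.mul_sum,
    Finset.sum_add_distrib, ← Finset.mul_sum, ← Finset.mul_sum, hs (m - 1), Finset.sum_const, Finset.card_univ,
    Fintype.card_fin, nsmul_eq_mul, mul_assoc (2 * ν) (m : ℝ), h4]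
  push_cast
  ring

theorem WW_succ (m : ℕ) : WW a ν (m + 1) =
    (∑ c, a c ^ 2) * VV a ν (m + 1) + 2 * (m + 1) * ν ^ 2 * WW a ν m := by
  have h1 : ∀ c, a c * ex (el a ν c * qq a ν ^ (m + 1)) = a c ^ 2 * VV a ν (m + 1) +
      2 * (m + 1) * ν ^ 2 * (a c * ex (el a ν c * qq a ν ^ m)) := by
    intro c
    have h2 : el a ν c * qq a ν ^ (m + 1) = C (a c) * qq a ν ^ (m + 1) +
        C ν * (X c * qq a ν ^ (m + 1)) := by
      nth_rewrite 1 [el]
      ring
    rw [h2, ex_add, ex_C_mul, ex_C_mul, stein, pderiv_qq_pow, ex_C_mul, Nat.add_sub_cancel]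
    unfold VV
    push_cast
    ring
  unfold WW
  rw [Finset.sum_congr rfl fun c _ => h1 c, Finset.sum_add_distrib, ← Finset.sum_mul,
    ← Finset.mul_sum]

theorem VV_zero : VV a ν 0 = 1 := by
  unfold VV ex
  simp

theorem WW_zero : WW a ν 0 = ∑ c, a c ^ 2 := by
  unfold WW
  refine Finset.sum_congr rfl fun c _ => ?_
  have h2 : el a ν c * qq a ν ^ 0 = C (a c) * qq a ν ^ 0 + C ν * (X c * qq a ν ^ 0) := by
    nth_rewrite 1 [el]
    ring
  rw [h2, ex_add, ex_C_mul, ex_C_mul, stein, pderiv_qq_pow]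
  have h3 := VV_zero a ν
  unfold VV at h3
  rw [h3]
  simp only [CharP.cast_eq_zero, mul_zero, map_zero, zero_mul]
  have h4 : ex 0 = 0 := by
    unfold ex
    simp
  rw [h4]
  ring

end Shift

/-- `∏ (2 (j - t) + 1)` -/
noncomputable def RR (j : ℝ) (k : ℕ) : ℝ := ∏ t ∈ range k, (2 * (j - t) + 1)

theorem RR_succ (j : ℝ) (k : ℕ) : RR j (k + 1) = RR j k * (2 * (j - k) + 1) := by
  unfold RR
  rw [Finset.prod_range_succ]

theorem RR_succ' (j : ℝ) (k : ℕ) : RR (j + 1) (k + 1) = (2 * j + 3) * RR j k := by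
  unfold RR
  rw [Finset.prod_range_succ']
  rw [mul_comm]
  congr 1
  · push_cast
    ring
  · refine Finset.prod_congr rfl fun t _ => ?_
    push_cast
    ring

/-- the closed form of `E |a + ν u| ^ (2 j)`, `x = |a| ^ 2`, `y = ν ^ 2` -/
noncomputable def AA (x y : ℝ) (j : ℕ) : ℝ :=
  ∑ k ∈ range (j + 1), (j.choose k : ℝ) * x ^ (j - k) * y ^ k * RR j k

/-- the closed form of `E (a, a + ν u) |a + ν u| ^ (2 j)` -/
noncomputable def BB (x y : ℝ) (j : ℕ) : ℝ :=
  ∑ k ∈ range (j + 1), (j.choose k : ℝ) * x ^ (j + 1 - k) * y ^ k * RR (j + 1) k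

theorem BB_eq (x y : ℝ) (j : ℕ) : BB x y j =
    ∑ k ∈ range (j + 1), (j.choose (k + 1) : ℝ) * x ^ (j - k) * y ^ (k + 1) *
      ((2 * j + 3) * RR j k) + x ^ (j + 1) := by
  unfold BB
  rw [Finset.sum_range_succ', Finset.sum_range_succ _ j]
  have h1 : ((j.choose (j + 1) : ℕ) : ℝ) = 0 := by
    rw [Nat.choose_succ_self]; simp
  rw [h1]
  simp only [zero_mul, add_zero, Nat.choose_zero_right, Nat.cast_one, one_mul, pow_zero, mul_one,
    Nat.sub_zero]
  congr 1
  · refine Finset.sum_congr rfl fun k _ => ?_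
    rw [RR_succ', Nat.add_sub_add_right]
  · unfold RR
    simp

theorem AA_succ (x y : ℝ) (j : ℕ) :
    AA x y (j + 1) = BB x y j + y * (2 * j + 3) * AA x y j := by
  rw [BB_eq]
  unfold AA
  rw [Finset.sum_range_succ', Finset.mul_sum]
  simp only [Nat.add_sub_add_right, Nat.choose_zero_right, Nat.cast_one, one_mul, pow_zero, mul_one,
    Nat.sub_zero]
  rw [show RR ((j + 1 : ℕ) : ℝ) 0 = 1 from by unfold RR; simp, mul_one, add_right_comm,
    ← Finset.sum_add_distrib]
  congr 1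
  refine Finset.sum_congr rfl fun k _ => ?_
  rw [Nat.choose_succ_succ]
  push_cast
  rw [RR_succ']
  ring

theorem BB_succ (x y : ℝ) (j : ℕ) :
    BB x y (j + 1) = x * AA x y (j + 1) + 2 * (j + 1) * y * BB x y j := by
  unfold BB AA
  rw [Finset.sum_range_succ', Finset.sum_range_succ' _ (j + 1), mul_add, Finset.mul_sum,
    Finset.mul_sum]
  simp only [Nat.add_sub_add_right, Nat.choose_zero_right, Nat.cast_one, one_mul, pow_zero, mul_one,
    Nat.sub_zero]
  have key : ∑ k ∈ range (j + 1), ((j + 1).choose (k + 1) : ℝ) * x ^ (j + 1 - k) * y ^ (k + 1) *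
        RR (((j + 1 : ℕ) : ℝ) + 1) (k + 1) =
      ∑ k ∈ range (j + 1), x * (((j + 1).choose (k + 1) : ℝ) * x ^ (j - k) * y ^ (k + 1) *
        RR ((j + 1 : ℕ) : ℝ) (k + 1)) +
      ∑ k ∈ range (j + 1), 2 * ((j : ℝ) + 1) * y * ((j.choose k : ℝ) * x ^ (j + 1 - k) * y ^ k *
        RR ((j : ℝ) + 1) k) := by
    rw [← Finset.sum_add_distrib]
    refine Finset.sum_congr rfl fun k hk => ?_
    have hk' : k ≤ j := by
      have := Finset.mem_range.1 hk
      omega
    have h1 : ((j : ℝ) + 1) * (j.choose k : ℝ) = ((j + 1).choose (k + 1) : ℝ) * (k + 1) := by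
      have := Nat.add_one_mul_choose_eq j k
      exact_mod_cast this
    have h2 : x ^ (j + 1 - k) = x * x ^ (j - k) := by
      rw [← pow_succ', Nat.sub_add_comm hk']
    have h3 : RR (((j + 1 : ℕ) : ℝ) + 1) (k + 1) = (2 * ((j : ℝ) + 1) + 3) * RR ((j : ℝ) + 1) k := by
      rw [RR_succ']
      push_cast
      ring
    have h4 : RR ((j + 1 : ℕ) : ℝ) (k + 1) = RR ((j : ℝ) + 1) k * (2 * ((j : ℝ) + 1 - k) + 1) := by
      push_cast
      rw [RR_succ]
    rw [h2, h3, h4]
    linear_combination (-(2 * y ^ (k + 1) * (x * x ^ (j - k)) * RR ((j : ℝ) + 1) k)) * h1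
  rw [key]
  have h0 : ∀ z : ℝ, RR z 0 = 1 := fun z => by unfold RR; simp
  rw [h0, h0]
  ring

theorem VV_WW (a : Fin 3 → ℝ) (ν : ℝ) (m : ℕ) :
    VV a ν m = AA (∑ c, a c ^ 2) (ν ^ 2) m ∧ WW a ν m = BB (∑ c, a c ^ 2) (ν ^ 2) m := by
  induction m with
  | zero =>
    rw [VV_zero, WW_zero]
    unfold AA BB RR
    simp
  | succ m ih =>
    have h1 : VV a ν (m + 1) = AA (∑ c, a c ^ 2) (ν ^ 2) (m + 1) := by
      rw [VV_succ, AA_succ, ih.1, ih.2]
    refine ⟨h1, ?_⟩
    rw [WW_succ, BB_succ, h1, ih.2]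

end Pool.Agent.Zk11.LN
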