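import Pool.Agent.Zk79.LN.Base
import Pool.Agent.Zk11.LN.St

set_option autoImplicit false

/-! The joint moments of `|u|` and `|μ u + ν u'|`. -/

namespace Pool.Agent.Zk11.LN

open Finset MeasureTheory ProbabilityTheory WithLp Pool.Agent.Zk79.LM Pool.Agent.Zk79.LN

theorem shift (a : E3) (ν : ℝ) (j : ℕ) :
    ∫ u : E3, ‖a + ν • u‖ ^ (2 * j) ∂(stdGaussian E3) = AA (‖a‖ ^ 2) (ν ^ 2) j := by
  have h1 := (VV_WW (fun c => a c) ν j).1
  have h2 : ∑ c, (a c) ^ 2 = ‖a‖ ^ 2 := (EuclideanSpace.real_norm_sq_eq a).symm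
  rw [h2] at h1
  rw [← h1, ← map_pi_eq_stdGaussian, integral_map (by fun_prop) (by fun_prop)]
  unfold VV ex
  refine integral_congr_ae ?_
  filter_upwards with u
  rw [map_pow, pow_mul, EuclideanSpace.real_norm_sq_eq]
  congr 1
  unfold qq el
  simp

theorem mom_succ' (k : ℕ) : mom (k + 1) = (2 * k + 3) * mom k := by
  have h : ∀ k, mom k = VV 0 1 k := by
    intro k
    have h1 := shift 0 1 k
    have h2 := (VV_WW 0 1 k).1
    simp only [zero_add, one_smul] at h1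
    unfold mom
    rw [h1, h2]
    congr 1
    simp
  rw [h, h, VV_succ]
  unfold WW
  simp

theorem RR_zero (z : ℝ) : RR z 0 = 1 := by
  unfold RR
  simp

/-- `mom n = mom (n - k) ∏ (2 (n - t) + 1)` -/
theorem mom_RR (n k : ℕ) : mom (n + k) = mom n * RR ((n + k : ℕ) : ℝ) k := by
  induction k with
  | zero => rw [RR_zero, mul_one, add_zero]
  | succ k ih =>
    rw [← add_assoc, mom_succ', ih]
    have h : RR ((n + k + 1 : ℕ) : ℝ) (k + 1) = (2 * ((n + k : ℕ) : ℝ) + 3) * RR ((n + k : ℕ) : ℝ) k := by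
      rw [← RR_succ']
      push_cast
      ring_nf
    rw [h]
    ring

theorem RR_pos {n k : ℕ} (h : k ≤ n) : 0 < RR (n : ℝ) k := by
  unfold RR
  refine Finset.prod_pos fun t ht => ?_
  have h1 : t < k := Finset.mem_range.1 ht
  have h2 : (t : ℝ) ≤ n := by exact_mod_cast (h1.le.trans h)
  linarith

theorem int_joint (μ ν : ℝ) (i j : ℕ) :
    Integrable (fun p : E3 × E3 => ‖p.1‖ ^ (2 * i) * ‖μ • p.1 + ν • p.2‖ ^ (2 * j))
      ((stdGaussian E3).prod (stdGaussian E3)) := by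
  have h1 : Integrable (fun p : E3 × E3 => (2 ^ (2 * j - 1) * |μ| ^ (2 * j)) *
      (‖p.1‖ ^ (2 * (i + j)) * ‖p.2‖ ^ (2 * 0)) + (2 ^ (2 * j - 1) * |ν| ^ (2 * j)) *
      (‖p.1‖ ^ (2 * i) * ‖p.2‖ ^ (2 * j))) ((stdGaussian E3).prod (stdGaussian E3)) := by
    refine Integrable.add ?_ ?_
    · exact ((integrable_pow_std (i + j)).mul_prod (integrable_pow_std 0)).const_mul _
    · exact ((integrable_pow_std i).mul_prod (integrable_pow_std j)).const_mul _
  refine h1.mono' (by fun_prop) ?_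
  filter_upwards with p
  rw [Real.norm_eq_abs, abs_of_nonneg (by positivity)]
  have h2 : ‖μ • p.1 + ν • p.2‖ ^ (2 * j) ≤
      2 ^ (2 * j - 1) * ((|μ| * ‖p.1‖) ^ (2 * j) + (|ν| * ‖p.2‖) ^ (2 * j)) := by
    refine (pow_le_pow_left₀ (norm_nonneg _) ?_ _).trans
      (add_pow_le (mul_nonneg (abs_nonneg μ) (norm_nonneg p.1))
        (mul_nonneg (abs_nonneg ν) (norm_nonneg p.2)) (2 * j))
    refine (norm_add_le _ _).trans (le_of_eq ?_)
    rw [norm_smul, norm_smul, Real.norm_eq_abs, Real.norm_eq_abs]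
  refine (mul_le_mul_of_nonneg_left h2 (by positivity)).trans (le_of_eq ?_)
  rw [mul_pow, mul_pow, mul_zero, pow_zero, mul_one, Nat.mul_add, pow_add]
  ring

end Pool.Agent.Zk11.LN

namespace Pool.Agent.Zk79.LN

open Finset MeasureTheory ProbabilityTheory Filter Topology Pool.Agent.Zk79.LM Pool.Agent.Zk11.LN

theorem joint_moment (μ ν : ℝ) (i j : ℕ) :
    ∫ p : E3 × E3, ‖p.1‖ ^ (2 * i) * ‖μ • p.1 + ν • p.2‖ ^ (2 * j)
        ∂((stdGaussian E3).prod (stdGaussian E3)) = mom (i + j) * mm μ ν (i + j) j := by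
  rw [integral_prod _ (int_joint μ ν i j)]
  have h1 : ∀ u : E3, ∫ u' : E3, ‖u‖ ^ (2 * i) * ‖μ • u + ν • u'‖ ^ (2 * j) ∂(stdGaussian E3) =
      ∑ k ∈ range (j + 1), ((j.choose k : ℝ) * μ ^ (2 * (j - k)) * ν ^ (2 * k) * RR j k) *
        ‖u‖ ^ (2 * (i + (j - k))) := by
    intro u
    rw [integral_const_mul, shift, norm_smul, Real.norm_eq_abs, mul_pow, sq_abs]
    unfold AA
    rw [Finset.mul_sum]
    refine Finset.sum_congr rfl fun k _ => ?_
    rw [mul_pow, ← pow_mul, ← pow_mul, ← pow_mul, Nat.mul_add 2 i, pow_add]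
    ring
  simp only [h1]
  rw [integral_finsetSum]
  · unfold mm
    rw [Finset.mul_sum]
    refine Finset.sum_congr rfl fun k hk => ?_
    have hkj : k ≤ j := Nat.lt_succ_iff.1 (Finset.mem_range.1 hk)
    rw [integral_const_mul]
    have h2 : ∫ u : E3, ‖u‖ ^ (2 * (i + (j - k))) ∂(stdGaussian E3) = mom (i + (j - k)) := rfl
    have h3 := mom_RR (i + (j - k)) k
    have h4 : i + (j - k) + k = i + j := by omega
    rw [h4] at h3
    have h5 : 0 < RR ((i + j : ℕ) : ℝ) k := RR_pos (by omega)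
    have h6 : ∏ t ∈ range k, ((2 * ((j : ℝ) - t) + 1) / (2 * (((i + j : ℕ) : ℝ) - t) + 1)) =
        RR j k / RR ((i + j : ℕ) : ℝ) k := by
      unfold RR
      rw [Finset.prod_div_distrib]
    rw [h2, h6, h3]
    field_simp
  · intro k _
    exact (integrable_pow_std _).const_mul _

end Pool.Agent.Zk79.LN
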