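import Pool.Agent.Zk79.LN.Base3

set_option autoImplicit false

/-! # The function with the coefficients `ee` (module C of helper79) -/

namespace Pool.Agent.Zk11.LN

open Finset Filter Topology Pool.Agent.Zk79.LN

/-- falling factorials -/
noncomputable def ff (a : ℕ) (x : ℝ) : ℝ := ∏ t ∈ range a, (x - t)

/-- `(m + a)! / m!` -/
noncomputable def rp (m a : ℕ) : ℝ := ∏ t ∈ range a, ((m : ℝ) + 1 + t)

theorem ff_succ (a : ℕ) (x : ℝ) : ff (a + 1) x = ff a x * (x - a) := prod_range_succ _ _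

theorem rp_succ (m a : ℕ) : rp m (a + 1) = rp m a * ((m : ℝ) + 1 + a) := prod_range_succ _ _

theorem choose_ff (n m a : ℕ) : (n.choose m : ℝ) * ff a ((n : ℝ) - m) =
    (n.choose (m + a) : ℝ) * rp m a := by
  induction a with
  | zero => simp [ff, rp]
  | succ a ih =>
    rw [ff_succ, rp_succ, ← mul_assoc, ih]
    have h1 := Nat.choose_succ_right_eq n (m + a)
    have h2 : (n.choose (m + a + 1) : ℝ) * ((m : ℝ) + a + 1) =
        (n.choose (m + a) : ℝ) * ((n : ℝ) - m - a) := by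
      rcases Nat.lt_or_ge n (m + a) with h | h
      · rw [Nat.choose_eq_zero_of_lt h, Nat.choose_eq_zero_of_lt (by omega)]
        simp
      · obtain ⟨d, rfl⟩ := Nat.exists_eq_add_of_le h
        rw [Nat.add_sub_cancel_left] at h1
        have h3 : (((m + a + d).choose (m + a + 1) : ℕ) : ℝ) * ((m + a + 1 : ℕ) : ℝ) =
            (((m + a + d).choose (m + a) : ℕ) : ℝ) * (d : ℝ) := by exact_mod_cast h1
        push_cast at h3 ⊢
        linear_combination h3
    rw [← add_assoc m a 1]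
    linear_combination -(rp m a) * h2

theorem prod_ff (α : ℝ) (β : ℕ → ℝ) (a : ℕ) : ∃ c : ℕ → ℝ, c a = α ^ a ∧
    ∀ x : ℝ, ∏ t ∈ range a, (α * x + β t) = ∑ i ∈ range (a + 1), c i * ff i x := by
  induction a with
  | zero => exact ⟨fun _ => 1, by simp, fun x => by simp [ff]⟩
  | succ a ih =>
    obtain ⟨c, hc, h⟩ := ih
    refine ⟨fun i => (if i ≤ a then (α * i + β a) * c i else 0) +
      (if i = 0 then 0 else α * c (i - 1)), ?_, fun x => ?_⟩
    · simp only
      rw [if_neg (by omega), if_neg (by omega), zero_add, Nat.add_sub_cancel, hc, pow_succ,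
        mul_comm]
    · rw [prod_range_succ, h]
      have e1 : ∑ i ∈ range (a + 1 + 1), ((if i ≤ a then (α * i + β a) * c i else 0) +
          (if i = 0 then 0 else α * c (i - 1))) * ff i x =
          ∑ i ∈ range (a + 1), (α * i + β a) * c i * ff i x +
            ∑ i ∈ range (a + 1), α * c i * ff (i + 1) x := by
        rw [sum_congr rfl fun i _ => add_mul _ _ _, sum_add_distrib]
        congr 1
        · rw [sum_range_succ, if_neg (by omega), zero_mul, add_zero]
          refine sum_congr rfl fun i hi => ?_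
          rw [mem_range] at hi
          rw [if_pos (by omega)]
        · rw [sum_range_succ', if_pos rfl, zero_mul, add_zero]
          refine sum_congr rfl fun i _ => ?_
          rw [if_neg (by omega), Nat.add_sub_cancel]
      rw [e1, sum_mul, ← sum_add_distrib]
      refine sum_congr rfl fun i _ => ?_
      rw [ff_succ]
      ring

/-- termwise differentiation -/
theorem dser {f : ℝ → ℝ} {c : ℕ → ℝ} {μ r : ℝ}
    (h : ∀ y, |y| < r → HasSum (fun l => c l * y ^ l) (f (μ + y))) (y : ℝ) (hy : |y| < r) :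
    HasSum (fun l : ℕ => ((l : ℝ) + 1) * c (l + 1) * y ^ l) (deriv f (μ + y)) := by
  obtain ⟨ρ, hρ, hρr⟩ := exists_between hy
  obtain ⟨σ, hσ, hσr⟩ := exists_between hρr
  have hρ0 : 0 < ρ := (abs_nonneg y).trans_lt hρ
  have hσ0 : 0 < σ := hρ0.trans hσ
  have h1 := (h σ (by rwa [abs_of_pos hσ0])).summable
  obtain ⟨C, hC⟩ : ∃ C, ∀ l, |c l * σ ^ l| ≤ C := by
    obtain ⟨C, hC⟩ := h1.tendsto_atTop_zero.abs.bddAbove_range
    exact ⟨C, fun l => hC ⟨l, rfl⟩⟩
  have hC0 : 0 ≤ C := (abs_nonneg _).trans (hC 0)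
  obtain ⟨u, hu⟩ : ∃ u : ℕ → ℝ, u = fun l : ℕ => C / ρ * ((l : ℝ) ^ 1 * (ρ / σ) ^ l) := ⟨_, rfl⟩
  have hus : Summable u := by
    have hlt : ‖ρ / σ‖ < 1 := by
      rw [Real.norm_eq_abs, abs_of_pos (div_pos hρ0 hσ0), div_lt_one hσ0]
      exact hσ
    have h0 : Summable fun l : ℕ => (l : ℝ) ^ 1 * (ρ / σ) ^ l :=
      summable_pow_mul_geometric_of_norm_lt_one 1 hlt
    rw [hu]
    exact h0.mul_left _
  have hb : ∀ (l : ℕ) (z : ℝ), z ∈ Metric.ball (0 : ℝ) ρ → ‖c l * (l * z ^ (l - 1))‖ ≤ u l := by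
    intro l z hz
    rw [Metric.mem_ball, dist_zero_right, Real.norm_eq_abs] at hz
    rcases Nat.eq_zero_or_pos l with rfl | hl
    · simp [hu]
    · obtain ⟨k, rfl⟩ : ∃ k, l = k + 1 := ⟨l - 1, by omega⟩
      have h2 := hC (k + 1)
      rw [abs_mul, abs_pow, abs_of_pos hσ0, ← le_div_iff₀ (by positivity)] at h2
      rw [Real.norm_eq_abs, abs_mul, abs_mul, abs_pow, Nat.abs_cast, Nat.add_sub_cancel, hu]
      have h3 : |z| ^ k ≤ ρ ^ k := pow_le_pow_left₀ (abs_nonneg _) hz.le _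
      calc |c (k + 1)| * (((k + 1 : ℕ) : ℝ) * |z| ^ k) ≤
            C / σ ^ (k + 1) * (((k + 1 : ℕ) : ℝ) * ρ ^ k) := by
            refine mul_le_mul h2 ?_ (by positivity) (by positivity)
            exact mul_le_mul_of_nonneg_left h3 (by positivity)
        _ = C / ρ * (((k + 1 : ℕ) : ℝ) ^ 1 * (ρ / σ) ^ (k + 1)) := by
            rw [div_pow]
            field_simp
            ring
  have hmem : y ∈ Metric.ball (0 : ℝ) ρ := by
    rw [Metric.mem_ball, dist_zero_right, Real.norm_eq_abs]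
    exact hρ
  have h2 : HasDerivAt (fun z => ∑' l, c l * z ^ l) (∑' l : ℕ, c l * (l * y ^ (l - 1))) y := by
    refine hasDerivAt_tsum_of_isPreconnected hus Metric.isOpen_ball
      (convex_ball (0 : ℝ) ρ).isPreconnected (fun l z _ => ?_) hb hmem ?_ hmem
    · exact (hasDerivAt_pow l z).const_mul (c l)
    · exact (h y hy).summable
  have h3 : HasDerivAt (fun z => f (μ + z)) (∑' l : ℕ, c l * (l * y ^ (l - 1))) y := by
    refine h2.congr_of_eventuallyEq ?_
    filter_upwards [Metric.isOpen_ball.mem_nhds hmem] with z hz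
    rw [Metric.mem_ball, dist_zero_right, Real.norm_eq_abs] at hz
    exact ((h z (hz.trans hρr)).tsum_eq).symm
  have h4 : deriv f (μ + y) = ∑' l : ℕ, c l * (l * y ^ (l - 1)) := by
    rw [← h3.deriv]
    exact (deriv_comp_const_add f μ y).symm
  have h5 : Summable fun l : ℕ => c l * (l * y ^ (l - 1)) :=
    Summable.of_norm_bounded hus fun l => hb l y hmem
  have h6 := h5.hasSum
  rw [← h4, ← hasSum_nat_add_iff' 1] at h6
  simp only [sum_range_one, Nat.cast_zero, zero_mul, mul_zero, sub_zero, Nat.add_sub_cancel] at h6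
  have e : (fun l : ℕ => ((l : ℝ) + 1) * c (l + 1) * y ^ l) =
      fun l : ℕ => c (l + 1) * (((l + 1 : ℕ) : ℝ) * y ^ l) := by
    funext l
    push_cast
    ring
  rw [e]
  exact h6

theorem rp_succ' (m a : ℕ) : rp m (a + 1) = ((m : ℝ) + 1) * rp (m + 1) a := by
  unfold rp
  rw [prod_range_succ', mul_comm]
  push_cast
  congr 1
  · ring
  · refine prod_congr rfl fun t _ => ?_
    ring

theorem rp_add (m a b : ℕ) : rp m (b + a) = rp m b * rp (m + b) a := by
  unfold rp
  rw [prod_range_add]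
  congr 1
  refine prod_congr rfl fun t _ => ?_
  push_cast
  ring

theorem ff_add (l b : ℕ) : ff b ((l + b : ℕ) : ℝ) = rp l b := by
  induction b generalizing l with
  | zero => simp [ff, rp]
  | succ b ih =>
    rw [ff_succ, rp_succ', ← ih (l + 1)]
    push_cast
    ring_nf

theorem ff_zero {l b : ℕ} (h : l < b) : ff b (l : ℝ) = 0 := by
  unfold ff
  exact prod_eq_zero (mem_range.2 h) (sub_self _)

variable {g : ℕ → ℝ}

/-- the power series of the derivatives -/
theorem BB_der (hg0 : ∀ i, 0 ≤ g i)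
    (hg : ∀ ρ : ℝ, 0 ≤ ρ → ρ < 1 → Summable fun j => g j * ρ ^ j) {μ : ℝ} (hμ : 0 < μ) (n : ℕ) :
    ∀ y : ℝ, |y| < 1 - μ → HasSum (fun l => rp l n * BB g μ (l + n) * y ^ l)
      (iteratedDeriv n (Ps g) (μ + y)) := by
  induction n with
  | zero =>
    intro y hy
    have h1 := expand hg0 hg hμ (y := y) (by linarith)
    simpa [rp] using h1
  | succ n ih =>
    intro y hy
    have h1 := dser ih y hy
    rw [iteratedDeriv_succ]
    have e : (fun l : ℕ => rp l (n + 1) * BB g μ (l + (n + 1)) * y ^ l) =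
        fun l : ℕ => ((l : ℝ) + 1) * (rp (l + 1) n * BB g μ (l + 1 + n)) * y ^ l := by
      funext l
      rw [rp_succ', add_assoc l 1 n, add_comm 1 n]
      ring
    rw [e]
    exact h1

theorem hasSum_A (hg0 : ∀ i, 0 ≤ g i)
    (hg : ∀ ρ : ℝ, 0 ≤ ρ → ρ < 1 → Summable fun j => g j * ρ ^ j) {μ : ℝ} (hμ : 0 < μ) (a b : ℕ)
    {y : ℝ} (hy : |y| < 1 - μ) :
    HasSum (fun l : ℕ => ff b (l : ℝ) * (μ ^ a * rp l a * BB g μ (l + a)) * y ^ l)
      (μ ^ a * y ^ b * iteratedDeriv (a + b) (Ps g) (μ + y)) := by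
  have h1 := (BB_der hg0 hg hμ (a + b) y hy).mul_left (μ ^ a * y ^ b)
  rw [← hasSum_nat_add_iff' b]
  rw [sum_eq_zero, sub_zero]
  · have e : (fun l : ℕ => ff b ((l + b : ℕ) : ℝ) * (μ ^ a * rp (l + b) a * BB g μ (l + b + a)) *
        y ^ (l + b)) = fun l => μ ^ a * y ^ b * (rp l (a + b) * BB g μ (l + (a + b)) * y ^ l) := by
      funext l
      rw [ff_add, add_comm a b, rp_add, pow_add, add_assoc l b a]
      ring
    rw [e]
    exact h1
  · intro l hl
    rw [mem_range] at hl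
    rw [ff_zero hl]
    ring

theorem hasSum_even {F : ℕ → ℝ} {y A B : ℝ} (h1 : HasSum (fun l => F l * y ^ l) A)
    (h2 : HasSum (fun l => F l * (-y) ^ l) B) :
    HasSum (fun k => F (2 * k) * y ^ (2 * k)) ((A + B) / 2) := by
  have h3 := h1.add h2
  have hinj : Function.Injective (fun k : ℕ => 2 * k) := fun x y h => by
    simp only at h
    omega
  have h4 := (hinj.hasSum_iff (fun l hl => ?_)).2 h3
  · have h5 := h4.div_const 2
    have e : (fun k : ℕ => F (2 * k) * y ^ (2 * k)) = fun k : ℕ =>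
        ((fun l => F l * y ^ l + F l * (-y) ^ l) ∘ fun k => 2 * k) k / 2 := by
      funext k
      rw [Function.comp_apply, (even_two_mul k).neg_pow]
      ring
    rw [e]
    exact h5
  · have hodd : Odd l := by
      rw [← Nat.not_even_iff_odd]
      rintro ⟨m, hm⟩
      exact hl ⟨m, by simp only; omega⟩
    rw [hodd.neg_pow]
    ring

/-- the numbers `DD` by the Taylor coefficients -/
theorem DD_eq (hg0 : ∀ i, 0 ≤ g i)
    (hg : ∀ ρ : ℝ, 0 ≤ ρ → ρ < 1 → Summable fun j => g j * ρ ^ j) {μ : ℝ} (hμ : 0 < μ)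
    (hμ1 : μ < 1) (ν : ℝ) (k i : ℕ) {c : ℕ → ℝ}
    (hc : ∀ x : ℝ, ∏ t ∈ range i, ((-1) * x + (1 + 2 * (t : ℝ))) =
      ∑ a ∈ range (i + 1), c a * ff a x) :
    DD g μ ν k i = dd k * ν ^ (2 * k) / μ *
      ∑ a ∈ range (i + 1), c a * (μ ^ a * rp (2 * k) a * BB g μ (2 * k + a)) := by
  have h1 : ∀ a, HasSum (fun j => g j * ((2 * j + 1).choose (2 * k + a) : ℝ) *
      μ ^ (2 * j + 1 - (2 * k + a))) (BB g μ (2 * k + a)) := fun a =>
    (summable_BB hg0 hg hμ hμ1 (2 * k + a)).hasSum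
  have h2 := hasSum_sum (s := range (i + 1)) fun a _ =>
    (h1 a).mul_left (dd k * ν ^ (2 * k) / μ * (c a * (μ ^ a * rp (2 * k) a)))
  have h3 : ∑ a ∈ range (i + 1), dd k * ν ^ (2 * k) / μ * (c a * (μ ^ a * rp (2 * k) a)) *
      BB g μ (2 * k + a) = dd k * ν ^ (2 * k) / μ *
      ∑ a ∈ range (i + 1), c a * (μ ^ a * rp (2 * k) a * BB g μ (2 * k + a)) := by
    rw [mul_sum]
    refine sum_congr rfl fun a _ => ?_
    ring
  rw [h3] at h2
  rw [← h2.tsum_eq]
  unfold DD
  refine tsum_congr fun j => ?_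
  rcases Nat.lt_or_ge j k with hj | hj
  · unfold dk
    rw [Nat.choose_eq_zero_of_lt hj]
    simp only [Nat.cast_zero, zero_mul, mul_zero]
    symm
    refine sum_eq_zero fun a _ => ?_
    rw [Nat.choose_eq_zero_of_lt (by omega)]
    simp
  · have e1 := choose_id j k hj
    have e2 : ∏ t ∈ range i, (2 * ((k : ℝ) - j) + 2 * (t : ℝ)) =
        ∑ a ∈ range (i + 1), c a * ff a (((2 * j + 1 : ℕ) : ℝ) - ((2 * k : ℕ) : ℝ)) := by
      rw [← hc]
      refine prod_congr rfl fun t _ => ?_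
      push_cast
      ring
    have e3 : ∀ a, ((2 * j + 1).choose (2 * k) : ℝ) *
        ff a (((2 * j + 1 : ℕ) : ℝ) - ((2 * k : ℕ) : ℝ)) * μ ^ (2 * (j - k)) =
        ((2 * j + 1).choose (2 * k + a) : ℝ) * rp (2 * k) a *
          (μ ^ a / μ * μ ^ (2 * j + 1 - (2 * k + a))) := by
      intro a
      rw [choose_ff]
      rcases Nat.lt_or_ge (2 * j + 1) (2 * k + a) with h | h
      · rw [Nat.choose_eq_zero_of_lt h]
        simp
      · have e : μ ^ a / μ * μ ^ (2 * j + 1 - (2 * k + a)) = μ ^ (2 * (j - k)) := by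
          rw [div_mul_eq_mul_div, ← pow_add, div_eq_iff hμ.ne', ← pow_succ]
          congr 1
          omega
        rw [e]
    unfold dk
    rw [e2, mul_sum]
    refine sum_congr rfl fun a _ => ?_
    have e4 := e3 a
    calc g j * ((j.choose k : ℝ) * μ ^ (2 * (j - k)) * ν ^ (2 * k) *
          ∏ t ∈ range k, (2 * ((j : ℝ) - t) + 1)) *
          (c a * ff a (((2 * j + 1 : ℕ) : ℝ) - ((2 * k : ℕ) : ℝ))) =
          g j * ν ^ (2 * k) * c a * ((j.choose k : ℝ) * ∏ t ∈ range k, (2 * ((j : ℝ) - t) + 1)) *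
            (ff a (((2 * j + 1 : ℕ) : ℝ) - ((2 * k : ℕ) : ℝ)) * μ ^ (2 * (j - k))) := by ring
      _ = g j * ν ^ (2 * k) * c a * dd k * (((2 * j + 1).choose (2 * k) : ℝ) *
            ff a (((2 * j + 1 : ℕ) : ℝ) - ((2 * k : ℕ) : ℝ)) * μ ^ (2 * (j - k))) := by
          rw [e1]
          ring
      _ = _ := by
          rw [e4]
          ring

theorem dq_ne (Q s : ℕ) : dq Q s ≠ 0 := by
  unfold dq
  rw [prod_ne_zero_iff]
  intro t _ h
  have h1 : (2 * (t : ℤ) + 1 - 2 * Q) = 0 := by exact_mod_cast h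
  omega

theorem dq_eq (Q l k : ℕ) (hl : l ≤ Q) :
    dq Q (k + (Q - l)) * ∏ i ∈ range l, (1 * (((2 * k : ℕ) : ℝ)) + (-1 - 2 * (i : ℝ))) =
      dq Q Q * dd k := by
  induction l with
  | zero =>
    simp only [range_zero, prod_empty, mul_one, Nat.sub_zero]
    unfold dq dd
    rw [add_comm k Q, prod_range_add]
    congr 1
    refine prod_congr rfl fun t _ => ?_
    push_cast
    ring
  | succ l ih =>
    rw [← ih (by omega), prod_range_succ]
    have e : k + (Q - l) = k + (Q - (l + 1)) + 1 := by omega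
    have e2 : dq Q (k + (Q - l)) = dq Q (k + (Q - (l + 1))) *
        (1 * (((2 * k : ℕ) : ℝ)) + (-1 - 2 * (l : ℝ))) := by
      rw [e]
      unfold dq
      rw [prod_range_succ]
      congr 1
      have e3 : ((k + (Q - (l + 1)) : ℕ) : ℝ) = k + Q - l - 1 := by
        have h : k + (Q - (l + 1)) + (l + 1) = k + Q := by omega
        have h' : ((k + (Q - (l + 1)) : ℕ) : ℝ) + ((l + 1 : ℕ) : ℝ) = ((k + Q : ℕ) : ℝ) := by
          exact_mod_cast h
        push_cast at h' ⊢
        linarith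
      rw [e3]
      push_cast
      ring
    rw [e2]
    ring

/-- functions of the wanted form, `c` is the coefficient of `T ^ (2 Q)` in `R Q` -/
def Fm (Ψ : ℕ → ℝ → ℝ) (Q : ℕ) (μ ν c : ℝ) (V : ℝ → ℝ) : Prop :=
  ∃ R : ℕ → Polynomial ℝ, (∀ i, (R i).natDegree ≤ 2 * Q) ∧ (R Q).coeff (2 * Q) = c ∧
    ∀ T, V T = ∑ i ∈ range (Q + 1), ((R i).eval T * Ψ i (μ + ν * T) +
      (R i).eval (-T) * Ψ i (μ - ν * T))

theorem Fm.zero (Ψ : ℕ → ℝ → ℝ) (Q : ℕ) (μ ν : ℝ) : Fm Ψ Q μ ν 0 fun _ => 0 :=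
  ⟨fun _ => 0, by simp, by simp, by simp⟩

theorem Fm.add {Ψ : ℕ → ℝ → ℝ} {Q : ℕ} {μ ν c c' : ℝ} {V V' : ℝ → ℝ} (h : Fm Ψ Q μ ν c V)
    (h' : Fm Ψ Q μ ν c' V') : Fm Ψ Q μ ν (c + c') fun T => V T + V' T := by
  obtain ⟨R, h1, h2, h3⟩ := h
  obtain ⟨R', h1', h2', h3'⟩ := h'
  refine ⟨fun i => R i + R' i, fun i => ?_, ?_, fun T => ?_⟩
  · exact (Polynomial.natDegree_add_le _ _).trans (max_le (h1 i) (h1' i))
  · rw [Polynomial.coeff_add, h2, h2']
  · show V T + V' T = _
    rw [h3, h3', ← sum_add_distrib]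
    refine sum_congr rfl fun i _ => ?_
    rw [Polynomial.eval_add, Polynomial.eval_add]
    ring

theorem Fm.sum {Ψ : ℕ → ℝ → ℝ} {Q : ℕ} {μ ν : ℝ} (s : Finset ℕ) {c : ℕ → ℝ} {V : ℕ → ℝ → ℝ}
    (h : ∀ i ∈ s, Fm Ψ Q μ ν (c i) (V i)) : Fm Ψ Q μ ν (∑ i ∈ s, c i) fun T => ∑ i ∈ s, V i T := by
  induction s using Finset.cons_induction with
  | empty => simpa using Fm.zero Ψ Q μ ν
  | cons a s ha ih =>
    have h1 := (h a (mem_cons_self a s)).add (ih fun i hi => h i (mem_cons_of_mem hi))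
    have e1 : (fun T => ∑ i ∈ cons a s ha, V i T) = fun T => V a T + ∑ i ∈ s, V i T := by
      funext T
      exact sum_cons ha
    rw [e1, sum_cons]
    exact h1

theorem Fm.mono {Ψ : ℕ → ℝ → ℝ} {Q : ℕ} {μ ν : ℝ} (α : ℝ) {m i : ℕ} (hm : m ≤ 2 * Q)
    (hi : i ≤ Q) : Fm Ψ Q μ ν (if i = Q ∧ m = 2 * Q then α else 0) fun T =>
      α * T ^ m * Ψ i (μ + ν * T) + α * (-T) ^ m * Ψ i (μ - ν * T) := by
  refine ⟨fun j => if j = i then Polynomial.C α * Polynomial.X ^ m else 0, fun j => ?_, ?_,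
    fun T => ?_⟩
  · simp only
    split_ifs
    · exact (Polynomial.natDegree_C_mul_X_pow_le _ _).trans hm
    · simp
  · simp only
    by_cases h : Q = i
    · rw [if_pos h, Polynomial.coeff_C_mul_X_pow]
      by_cases h2 : m = 2 * Q
      · rw [if_pos h2.symm, if_pos ⟨h.symm, h2⟩]
      · rw [if_neg (fun h3 => h2 h3.symm), if_neg (fun h3 => h2 h3.2)]
    · rw [if_neg h, if_neg (fun h3 => h h3.1.symm), Polynomial.coeff_zero]
  · rw [sum_eq_single i]
    · simp
    · intro j _ hj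
      simp [hj]
    · intro h
      exact absurd (mem_range.2 (by omega)) h

/-- C with the value of the coefficient -/
theorem VVe {g p : ℕ → ℝ} {Q : ℕ} {μ ν : ℝ} (hg0 : ∀ i, 0 ≤ g i)
    (hg : ∀ ρ : ℝ, 0 ≤ ρ → ρ < 1 → Summable fun j => g j * ρ ^ j) (hμ : 0 < μ) (hμ1 : μ < 1)
    (hν : 0 < ν) :
    ∃ R : ℕ → Polynomial ℝ, (∀ i, (R i).natDegree ≤ 2 * Q) ∧
      (R Q).coeff (2 * Q) = (-1) ^ Q * p Q * μ ^ Q / (2 * μ * dq Q Q) ∧
      ∀ᶠ T in 𝓝 (0 : ℝ), HasSum (fun s => ee p Q g μ ν s / dq Q s * T ^ (2 * s))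
        (∑ i ∈ range (Q + 1), ((R i).eval T * iteratedDeriv i (Ps g) (μ + ν * T) +
          (R i).eval (-T) * iteratedDeriv i (Ps g) (μ - ν * T))) := by
  have hd := dq_ne Q Q
  choose c hc1 hc2 using fun i : ℕ => prod_ff (-1) (fun t => 1 + 2 * (t : ℝ)) i
  choose e he1 he2 using fun i : ℕ => prod_ff 1 (fun t => -1 - 2 * (t : ℝ)) i
  obtain ⟨α, hα⟩ : ∃ α : ℕ → ℕ → ℕ → ℕ → ℝ, ∀ r l b a, α r l b a =
      (r.choose l : ℝ) * p r / (dq Q Q * μ) * e l b * c (r - l) a * μ ^ a * ν ^ b / 2 :=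
    ⟨_, fun r l b a => rfl⟩
  obtain ⟨W, hW⟩ : ∃ W : ℕ → ℕ → ℕ → ℕ → ℝ → ℝ, ∀ r l b a T, W r l b a T =
      α r l b a * T ^ (2 * (Q - l) + b) * iteratedDeriv (a + b) (Ps g) (μ + ν * T) +
      α r l b a * (-T) ^ (2 * (Q - l) + b) * iteratedDeriv (a + b) (Ps g) (μ - ν * T) :=
    ⟨_, fun r l b a T => rfl⟩
  have hF : Fm (fun i => iteratedDeriv i (Ps g)) Q μ ν
      (∑ r ∈ range (Q + 1), ∑ l ∈ range (r + 1), ∑ b ∈ range (l + 1), ∑ a ∈ range (r - l + 1),
        (if a + b = Q ∧ 2 * (Q - l) + b = 2 * Q then α r l b a else 0))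
      (fun T => ∑ r ∈ range (Q + 1), ∑ l ∈ range (r + 1), ∑ b ∈ range (l + 1),
        ∑ a ∈ range (r - l + 1), W r l b a T) := by
    refine Fm.sum _ fun r hr => Fm.sum _ fun l hl => Fm.sum _ fun b hb => Fm.sum _ fun a ha => ?_
    rw [mem_range] at hr hl hb ha
    have h1 := Fm.mono (Ψ := fun i => iteratedDeriv i (Ps g)) (Q := Q) (μ := μ) (ν := ν)
      (α r l b a) (m := 2 * (Q - l) + b) (i := a + b) (by omega) (by omega)
    have e1 : W r l b a = fun T => α r l b a * T ^ (2 * (Q - l) + b) *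
        iteratedDeriv (a + b) (Ps g) (μ + ν * T) +
      α r l b a * (-T) ^ (2 * (Q - l) + b) * iteratedDeriv (a + b) (Ps g) (μ - ν * T) := by
      funext T
      exact hW r l b a T
    rw [e1]
    exact h1
  obtain ⟨R, hR1, hR2, hR3⟩ := hF
  refine ⟨R, hR1, ?_, ?_⟩
  · rw [hR2, sum_eq_single Q, sum_eq_single 0, sum_eq_single 0, sum_eq_single Q]
    · rw [if_pos (by omega), hα, he1, Nat.sub_zero, hc1, Nat.choose_zero_right]
      field_simp
      simp
    · intro a _ ha
      rw [if_neg (by omega)]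
    · intro h
      exact absurd (mem_range.2 (by omega)) h
    · intro b hb hb0
      rw [mem_range] at hb
      omega
    · intro h
      exact absurd (mem_range.2 (by omega)) h
    · intro l hl hl0
      rw [mem_range] at hl
      refine sum_eq_zero fun b hb => sum_eq_zero fun a ha => ?_
      rw [mem_range] at hb ha
      rw [if_neg (by omega)]
    · intro h
      exact absurd (mem_range.2 (by omega)) h
    · intro r hr hrQ
      rw [mem_range] at hr
      refine sum_eq_zero fun l hl => sum_eq_zero fun b hb => sum_eq_zero fun a ha => ?_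
      rw [mem_range] at hl hb ha
      rw [if_neg (by omega)]
    · intro h
      exact absurd (mem_range.2 (by omega)) h
  · have hev : ∀ᶠ T in 𝓝 (0 : ℝ), |ν * T| < 1 - μ := by
      have hcont : Continuous fun T : ℝ => |ν * T| := by fun_prop
      exact hcont.continuousAt.eventually_lt continuousAt_const (by simpa using hμ1)
    filter_upwards [hev] with T hT
    have e0 := hR3 T
    rw [← e0]
    -- the sum of one term
    have h1 : ∀ r l : ℕ, r ≤ Q → l ≤ r → HasSum (fun s : ℕ =>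
        (if Q ≤ s + l then (r.choose l : ℝ) * p r * DD g μ ν (s + l - Q) (r - l) else 0) /
          dq Q s * T ^ (2 * s))
        (∑ b ∈ range (l + 1), ∑ a ∈ range (r - l + 1), W r l b a T) := by
      intro r l hr hl
      have hz : ∑ s ∈ range (Q - l), (if Q ≤ s + l then (r.choose l : ℝ) * p r *
          DD g μ ν (s + l - Q) (r - l) else 0) / dq Q s * T ^ (2 * s) = 0 := by
        refine sum_eq_zero fun s hs => ?_
        rw [mem_range] at hs
        rw [if_neg (by omega)]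
        simp
      rw [← hasSum_nat_add_iff' (Q - l), hz, sub_zero]
      · have h2 : HasSum (fun k : ℕ => ∑ b ∈ range (l + 1), ∑ a ∈ range (r - l + 1),
            ((r.choose l : ℝ) * p r / (dq Q Q * μ) * T ^ (2 * (Q - l)) * e l b * c (r - l) a) *
              ((fun m : ℕ => ff b (m : ℝ) * (μ ^ a * rp m a * BB g μ (m + a))) (2 * k) *
                (ν * T) ^ (2 * k)))
            (∑ b ∈ range (l + 1), ∑ a ∈ range (r - l + 1), W r l b a T) := by
          refine hasSum_sum fun b _ => hasSum_sum fun a _ => ?_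
          have h3 := hasSum_A hg0 hg hμ a b hT
          have h4 := hasSum_A hg0 hg hμ a b (y := -(ν * T)) (by rwa [abs_neg])
          have h5 := (hasSum_even (F := fun m : ℕ => ff b (m : ℝ) *
            (μ ^ a * rp m a * BB g μ (m + a))) h3 h4).mul_left
            ((r.choose l : ℝ) * p r / (dq Q Q * μ) * T ^ (2 * (Q - l)) * e l b * c (r - l) a)
          have e1 : ((r.choose l : ℝ) * p r / (dq Q Q * μ) * T ^ (2 * (Q - l)) * e l b *
              c (r - l) a) * ((μ ^ a * (ν * T) ^ b * iteratedDeriv (a + b) (Ps g) (μ + ν * T) +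
              μ ^ a * (-(ν * T)) ^ b * iteratedDeriv (a + b) (Ps g) (μ + -(ν * T))) / 2) =
              W r l b a T := by
            have e2 : (-T) ^ (2 * (Q - l) + b) = T ^ (2 * (Q - l)) * (-T) ^ b := by
              rw [pow_add, (even_two_mul _).neg_pow]
            rw [hW, hα, e2, pow_add, ← sub_eq_add_neg, mul_pow, ← mul_neg, mul_pow]
            ring
          rw [← e1]
          exact h5
        have e3 : (fun k : ℕ => ((if Q ≤ k + (Q - l) + l then (r.choose l : ℝ) * p r *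
            DD g μ ν (k + (Q - l) + l - Q) (r - l) else 0) / dq Q (k + (Q - l)) *
              T ^ (2 * (k + (Q - l))))) = fun k : ℕ => ∑ b ∈ range (l + 1),
            ∑ a ∈ range (r - l + 1),
            ((r.choose l : ℝ) * p r / (dq Q Q * μ) * T ^ (2 * (Q - l)) * e l b * c (r - l) a) *
              ((fun m : ℕ => ff b (m : ℝ) * (μ ^ a * rp m a * BB g μ (m + a))) (2 * k) *
                (ν * T) ^ (2 * k)) := by
          funext k
          have hk : k + (Q - l) + l - Q = k := by omega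
          rw [if_pos (by omega), hk, DD_eq hg0 hg hμ hμ1 ν k (r - l) (hc2 (r - l))]
          have h6 := dq_eq Q l k (hl.trans hr)
          rw [he2 l] at h6
          have hdk := (dd_pos k).ne'
          have hdq := dq_ne Q (k + (Q - l))
          have h7 : dd k / dq Q (k + (Q - l)) =
              (∑ i ∈ range (l + 1), e l i * ff i (((2 * k : ℕ) : ℝ))) / dq Q Q := by
            rw [div_eq_div_iff hdq hd, mul_comm (dd k), ← h6]
            ring
          have h8 : ∀ x : ℝ, (r.choose l : ℝ) * p r * (dd k * ν ^ (2 * k) / μ * x) /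
              dq Q (k + (Q - l)) * T ^ (2 * (k + (Q - l))) =
              (r.choose l : ℝ) * p r / (dq Q Q * μ) * T ^ (2 * (Q - l)) *
                (∑ i ∈ range (l + 1), e l i * ff i (((2 * k : ℕ) : ℝ))) * x *
                  (ν * T) ^ (2 * k) := by
            intro x
            rw [mul_add 2 k (Q - l), pow_add, mul_pow]
            calc (r.choose l : ℝ) * p r * (dd k * ν ^ (2 * k) / μ * x) /
                dq Q (k + (Q - l)) * (T ^ (2 * k) * T ^ (2 * (Q - l))) =
                (r.choose l : ℝ) * p r / μ * ν ^ (2 * k) * x * T ^ (2 * k) * T ^ (2 * (Q - l)) *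
                  (dd k / dq Q (k + (Q - l))) := by ring
              _ = _ := by
                rw [h7]
                field_simp
          rw [h8, mul_sum, sum_mul]
          refine Eq.trans ?_ sum_comm
          refine sum_congr rfl fun a _ => ?_
          rw [mul_sum, sum_mul, sum_mul]
          refine sum_congr rfl fun b _ => ?_
          ring
        rw [e3]
        exact h2
    have h9 := hasSum_sum (s := range (Q + 1)) fun r hr => hasSum_sum (s := range (r + 1))
      fun l hl => h1 r l (by rw [mem_range] at hr; omega) (by rw [mem_range] at hl; omega)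
    have e4 : (fun s : ℕ => ee p Q g μ ν s / dq Q s * T ^ (2 * s)) = fun s : ℕ =>
        ∑ r ∈ range (Q + 1), ∑ l ∈ range (r + 1),
        (if Q ≤ s + l then (r.choose l : ℝ) * p r * DD g μ ν (s + l - Q) (r - l) else 0) /
          dq Q s * T ^ (2 * s) := by
      funext s
      unfold ee
      rw [sum_div, sum_mul]
      refine sum_congr rfl fun r _ => ?_
      rw [sum_div, sum_mul]
    rw [e4]
    exact h9

end Pool.Agent.Zk11.LN
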