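import Pool.Agent.Zk11.LN.VV

set_option autoImplicit false

/-! # The function with the coefficients `ee`, with the values of the coefficients at zero -/

namespace Pool.Agent.Zk11.LN

open Finset Filter Topology Pool.Agent.Zk79.LN

/-- functions of the wanted form, with the coefficients `C i k` of the polynomials -/
def Fc (Ψ : ℕ → ℝ → ℝ) (Q : ℕ) (μ ν : ℝ) (C : ℕ → ℕ → ℝ) (V : ℝ → ℝ) : Prop :=
  ∃ R : ℕ → Polynomial ℝ, (∀ i, (R i).natDegree ≤ 2 * Q) ∧ (∀ i k, (R i).coeff k = C i k) ∧
    ∀ T, V T = ∑ i ∈ range (Q + 1), ((R i).eval T * Ψ i (μ + ν * T) +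
      (R i).eval (-T) * Ψ i (μ - ν * T))

theorem Fc.zero (Ψ : ℕ → ℝ → ℝ) (Q : ℕ) (μ ν : ℝ) : Fc Ψ Q μ ν (fun _ _ => 0) fun _ => 0 :=
  ⟨fun _ => 0, by simp, by simp, by simp⟩

theorem Fc.add {Ψ : ℕ → ℝ → ℝ} {Q : ℕ} {μ ν : ℝ} {c c' : ℕ → ℕ → ℝ} {V V' : ℝ → ℝ}
    (h : Fc Ψ Q μ ν c V) (h' : Fc Ψ Q μ ν c' V') :
    Fc Ψ Q μ ν (fun i k => c i k + c' i k) fun T => V T + V' T := by
  obtain ⟨R, h1, h2, h3⟩ := h
  obtain ⟨R', h1', h2', h3'⟩ := h'
  refine ⟨fun i => R i + R' i, fun i => ?_, fun i k => ?_, fun T => ?_⟩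
  · exact (Polynomial.natDegree_add_le _ _).trans (max_le (h1 i) (h1' i))
  · rw [Polynomial.coeff_add, h2, h2']
  · show V T + V' T = _
    rw [h3, h3', ← sum_add_distrib]
    refine sum_congr rfl fun i _ => ?_
    rw [Polynomial.eval_add, Polynomial.eval_add]
    ring

theorem Fc.sum {Ψ : ℕ → ℝ → ℝ} {Q : ℕ} {μ ν : ℝ} (s : Finset ℕ) {c : ℕ → ℕ → ℕ → ℝ}
    {V : ℕ → ℝ → ℝ} (h : ∀ i ∈ s, Fc Ψ Q μ ν (c i) (V i)) :
    Fc Ψ Q μ ν (fun j k => ∑ i ∈ s, c i j k) fun T => ∑ i ∈ s, V i T := by
  induction s using Finset.cons_induction with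
  | empty => simpa using Fc.zero Ψ Q μ ν
  | cons a s ha ih =>
    have h1 := (h a (mem_cons_self a s)).add (ih fun i hi => h i (mem_cons_of_mem hi))
    have e1 : (fun T => ∑ i ∈ cons a s ha, V i T) = fun T => V a T + ∑ i ∈ s, V i T := by
      funext T
      exact sum_cons ha
    have e2 : (fun j k => ∑ i ∈ cons a s ha, c i j k) = fun j k => c a j k + ∑ i ∈ s, c i j k := by
      funext j k
      exact sum_cons ha
    rw [e1, e2]
    exact h1

theorem Fc.mono {Ψ : ℕ → ℝ → ℝ} {Q : ℕ} {μ ν : ℝ} (α : ℝ) {m i : ℕ} (hm : m ≤ 2 * Q)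
    (hi : i ≤ Q) : Fc Ψ Q μ ν (fun j k => if i = j ∧ m = k then α else 0) fun T =>
      α * T ^ m * Ψ i (μ + ν * T) + α * (-T) ^ m * Ψ i (μ - ν * T) := by
  refine ⟨fun j => if j = i then Polynomial.C α * Polynomial.X ^ m else 0, fun j => ?_,
    fun j k => ?_, fun T => ?_⟩
  · simp only
    split_ifs
    · exact (Polynomial.natDegree_C_mul_X_pow_le _ _).trans hm
    · simp
  · simp only
    by_cases h : j = i
    · rw [if_pos h, Polynomial.coeff_C_mul_X_pow]
      by_cases h2 : m = k
      · rw [if_pos h2.symm, if_pos ⟨h.symm, h2⟩]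
      · rw [if_neg (fun h3 => h2 h3.symm), if_neg (fun h3 => h2 h3.2)]
    · rw [if_neg h, if_neg (fun h3 => h h3.1.symm), Polynomial.coeff_zero]
  · rw [sum_eq_single i]
    · simp
    · intro j _ hj
      simp [hj]
    · intro h
      exact absurd (mem_range.2 (by omega)) h

theorem dq_refl (Q : ℕ) : dq Q Q = ∏ t ∈ range Q, (1 * (0 : ℝ) + (-1 - 2 * (t : ℝ))) := by
  unfold dq
  rw [← prod_range_reflect]
  refine prod_congr rfl fun t ht => ?_
  rw [mem_range] at ht
  have h : (((Q - 1 - t : ℕ) : ℝ)) = Q - 1 - t := by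
    have h1 : Q - 1 - t + (1 + t) = Q := by omega
    have h2 : (((Q - 1 - t : ℕ) : ℝ)) + ((1 + t : ℕ) : ℝ) = (Q : ℝ) := by exact_mod_cast h1
    push_cast at h2
    linarith
  rw [h]
  ring

/-- C with the values of the coefficients -/
theorem VVf {g p : ℕ → ℝ} {Q : ℕ} {μ ν : ℝ} (hg0 : ∀ i, 0 ≤ g i)
    (hg : ∀ ρ : ℝ, 0 ≤ ρ → ρ < 1 → Summable fun j => g j * ρ ^ j) (hμ : 0 < μ) (hμ1 : μ < 1)
    (hν : 0 < ν) :
    ∃ R : ℕ → Polynomial ℝ, (∀ i, (R i).natDegree ≤ 2 * Q) ∧
      (R Q).coeff (2 * Q) = (-1) ^ Q * p Q * μ ^ Q / (2 * μ * dq Q Q) ∧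
      (R 0).coeff 0 = p Q / (2 * μ) ∧ (∀ i, 1 ≤ i → (R i).coeff 0 = 0) ∧
      ∀ᶠ T in 𝓝 (0 : ℝ), HasSum (fun s => ee p Q g μ ν s / dq Q s * T ^ (2 * s))
        (∑ i ∈ range (Q + 1), ((R i).eval T * iteratedDeriv i (Ps g) (μ + ν * T) +
          (R i).eval (-T) * iteratedDeriv i (Ps g) (μ - ν * T))) := by
  have hd := dq_ne Q Q
  choose c hc1 hc2 using fun i : ℕ => prod_ff (-1) (fun t => 1 + 2 * (t : ℝ)) i
  choose e he1 he2 using fun i : ℕ => prod_ff 1 (fun t => -1 - 2 * (t : ℝ)) i
  obtain ⟨α, hα⟩ : ∃ α : ℕ → ℕ → ℕ → ℕ → ℝ, ∀ r l b a, α r l b a =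
      (r.choose l : ℝ) * p r / (dq Q Q * μ) * e l b * c (r - l) a * μ ^ a * ν ^ b / 2 :=
    ⟨_, fun r l b a => rfl⟩
  obtain ⟨W, hW⟩ : ∃ W : ℕ → ℕ → ℕ → ℕ → ℝ → ℝ, ∀ r l b a T, W r l b a T =
      α r l b a * T ^ (2 * (Q - l) + b) * iteratedDeriv (a + b) (Ps g) (μ + ν * T) +
      α r l b a * (-T) ^ (2 * (Q - l) + b) * iteratedDeriv (a + b) (Ps g) (μ - ν * T) :=
    ⟨_, fun r l b a T => rfl⟩
  have hF : Fc (fun i => iteratedDeriv i (Ps g)) Q μ ν
      (fun j k => ∑ r ∈ range (Q + 1), ∑ l ∈ range (r + 1), ∑ b ∈ range (l + 1),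
        ∑ a ∈ range (r - l + 1), (if a + b = j ∧ 2 * (Q - l) + b = k then α r l b a else 0))
      (fun T => ∑ r ∈ range (Q + 1), ∑ l ∈ range (r + 1), ∑ b ∈ range (l + 1),
        ∑ a ∈ range (r - l + 1), W r l b a T) := by
    refine Fc.sum _ fun r hr => Fc.sum _ fun l hl => Fc.sum _ fun b hb => Fc.sum _ fun a ha => ?_
    rw [mem_range] at hr hl hb ha
    have h1 := Fc.mono (Ψ := fun i => iteratedDeriv i (Ps g)) (Q := Q) (μ := μ) (ν := ν)
      (α r l b a) (m := 2 * (Q - l) + b) (i := a + b) (by omega) (by omega)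
    have e1 : W r l b a = fun T => α r l b a * T ^ (2 * (Q - l) + b) *
        iteratedDeriv (a + b) (Ps g) (μ + ν * T) +
      α r l b a * (-T) ^ (2 * (Q - l) + b) * iteratedDeriv (a + b) (Ps g) (μ - ν * T) := by
      funext T
      exact hW r l b a T
    rw [e1]
    exact h1
  obtain ⟨R, hR1, hR2', hR3⟩ := hF
  have hR2 : ∀ j k, (R j).coeff k = ∑ r ∈ range (Q + 1), ∑ l ∈ range (r + 1),
      ∑ b ∈ range (l + 1), ∑ a ∈ range (r - l + 1),
        (if a + b = j ∧ 2 * (Q - l) + b = k then α r l b a else 0) := hR2'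
  refine ⟨R, hR1, ?_, ?_, ?_, ?_⟩
  · rw [hR2, sum_eq_single Q, sum_eq_single 0, sum_eq_single 0, sum_eq_single Q]
    · rw [if_pos (by omega), hα, he1, Nat.sub_zero, hc1, Nat.choose_zero_right]
      field_simp
      simp
    · intro a _ ha
      rw [if_neg (by omega)]
    · intro h
      exact absurd (mem_range.2 (by omega)) h
    · intro b hb hb0
      rw [mem_range] at hb
      omega
    · intro h
      exact absurd (mem_range.2 (by omega)) h
    · intro l hl hl0
      rw [mem_range] at hl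
      refine sum_eq_zero fun b hb => sum_eq_zero fun a ha => ?_
      rw [mem_range] at hb ha
      rw [if_neg (by omega)]
    · intro h
      exact absurd (mem_range.2 (by omega)) h
    · intro r hr hrQ
      rw [mem_range] at hr
      refine sum_eq_zero fun l hl => sum_eq_zero fun b hb => sum_eq_zero fun a ha => ?_
      rw [mem_range] at hl hb ha
      rw [if_neg (by omega)]
    · intro h
      exact absurd (mem_range.2 (by omega)) h
  · rw [hR2, sum_eq_single Q, sum_eq_single Q, sum_eq_single 0, sum_eq_single 0]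
    · rw [if_pos (by omega), hα, Nat.sub_self, hc1 0, Nat.choose_self]
      have h0 := he2 Q 0
      have h1 : ∑ i ∈ range (Q + 1), e Q i * ff i 0 = e Q 0 := by
        rw [sum_eq_single 0]
        · simp [ff]
        · intro i _ hi
          have h2 : ff i (0 : ℝ) = 0 := by
            have := ff_zero (l := 0) (b := i) (by omega)
            simpa using this
          rw [h2, mul_zero]
        · intro h
          exact absurd (mem_range.2 (by omega)) h
      rw [h1, ← dq_refl] at h0
      rw [← h0]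
      field_simp
      simp
    · intro a ha ha0
      rw [mem_range] at ha
      omega
    · intro h
      exact absurd (mem_range.2 (by omega)) h
    · intro b _ hb0
      refine sum_eq_zero fun a _ => ?_
      rw [if_neg (by omega)]
    · intro h
      exact absurd (mem_range.2 (by omega)) h
    · intro l hl hl0
      rw [mem_range] at hl
      refine sum_eq_zero fun b _ => sum_eq_zero fun a _ => ?_
      rw [if_neg (by omega)]
    · intro h
      exact absurd (mem_range.2 (by omega)) h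
    · intro r hr hrQ
      rw [mem_range] at hr
      refine sum_eq_zero fun l hl => sum_eq_zero fun b _ => sum_eq_zero fun a _ => ?_
      rw [mem_range] at hl
      rw [if_neg (by omega)]
    · intro h
      exact absurd (mem_range.2 (by omega)) h
  · intro i hi
    rw [hR2]
    refine sum_eq_zero fun r hr => sum_eq_zero fun l hl => sum_eq_zero fun b hb =>
      sum_eq_zero fun a ha => ?_
    rw [mem_range] at hr hl hb ha
    rw [if_neg (by omega)]
  · have hev : ∀ᶠ T in 𝓝 (0 : ℝ), |ν * T| < 1 - μ := by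
      have hcont : Continuous fun T : ℝ => |ν * T| := by fun_prop
      exact hcont.continuousAt.eventually_lt continuousAt_const (by simpa using hμ1)
    filter_upwards [hev] with T hT
    have e0 := hR3 T
    rw [← e0]
    -- the sum of one term
    have h1 : ∀ r l : ℕ, r ≤ Q → l ≤ r → HasSum (fun s : ℕ =>
        (if Q ≤ s + l then (r.choose l : ℝ) * p r * DD g μ ν (s + l - Q) (r - l) else 0) /
          dq Q s * T ^ (2 * s))
        (∑ b ∈ range (l + 1), ∑ a ∈ range (r - l + 1), W r l b a T) := by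
      intro r l hr hl
      have hz : ∑ s ∈ range (Q - l), (if Q ≤ s + l then (r.choose l : ℝ) * p r *
          DD g μ ν (s + l - Q) (r - l) else 0) / dq Q s * T ^ (2 * s) = 0 := by
        refine sum_eq_zero fun s hs => ?_
        rw [mem_range] at hs
        rw [if_neg (by omega)]
        simp
      rw [← hasSum_nat_add_iff' (Q - l), hz, sub_zero]
      · have h2 : HasSum (fun k : ℕ => ∑ b ∈ range (l + 1), ∑ a ∈ range (r - l + 1),
            ((r.choose l : ℝ) * p r / (dq Q Q * μ) * T ^ (2 * (Q - l)) * e l b * c (r - l) a) *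
              ((fun m : ℕ => ff b (m : ℝ) * (μ ^ a * rp m a * BB g μ (m + a))) (2 * k) *
                (ν * T) ^ (2 * k)))
            (∑ b ∈ range (l + 1), ∑ a ∈ range (r - l + 1), W r l b a T) := by
          refine hasSum_sum fun b _ => hasSum_sum fun a _ => ?_
          have h3 := hasSum_A hg0 hg hμ a b hT
          have h4 := hasSum_A hg0 hg hμ a b (y := -(ν * T)) (by rwa [abs_neg])
          have h5 := (hasSum_even (F := fun m : ℕ => ff b (m : ℝ) *
            (μ ^ a * rp m a * BB g μ (m + a))) h3 h4).mul_left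
            ((r.choose l : ℝ) * p r / (dq Q Q * μ) * T ^ (2 * (Q - l)) * e l b * c (r - l) a)
          have e1 : ((r.choose l : ℝ) * p r / (dq Q Q * μ) * T ^ (2 * (Q - l)) * e l b *
              c (r - l) a) * ((μ ^ a * (ν * T) ^ b * iteratedDeriv (a + b) (Ps g) (μ + ν * T) +
              μ ^ a * (-(ν * T)) ^ b * iteratedDeriv (a + b) (Ps g) (μ + -(ν * T))) / 2) =
              W r l b a T := by
            have e2 : (-T) ^ (2 * (Q - l) + b) = T ^ (2 * (Q - l)) * (-T) ^ b := by
              rw [pow_add, (even_two_mul _).neg_pow]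
            rw [hW, hα, e2, pow_add, ← sub_eq_add_neg, mul_pow, ← mul_neg, mul_pow]
            ring
          rw [← e1]
          exact h5
        have e3 : (fun k : ℕ => ((if Q ≤ k + (Q - l) + l then (r.choose l : ℝ) * p r *
            DD g μ ν (k + (Q - l) + l - Q) (r - l) else 0) / dq Q (k + (Q - l)) *
              T ^ (2 * (k + (Q - l))))) = fun k : ℕ => ∑ b ∈ range (l + 1),
            ∑ a ∈ range (r - l + 1),
            ((r.choose l : ℝ) * p r / (dq Q Q * μ) * T ^ (2 * (Q - l)) * e l b * c (r - l) a) *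
              ((fun m : ℕ => ff b (m : ℝ) * (μ ^ a * rp m a * BB g μ (m + a))) (2 * k) *
                (ν * T) ^ (2 * k)) := by
          funext k
          have hk : k + (Q - l) + l - Q = k := by omega
          rw [if_pos (by omega), hk, DD_eq hg0 hg hμ hμ1 ν k (r - l) (hc2 (r - l))]
          have h6 := dq_eq Q l k (hl.trans hr)
          rw [he2 l] at h6
          have hdk := (dd_pos k).ne'
          have hdq := dq_ne Q (k + (Q - l))
          have h7 : dd k / dq Q (k + (Q - l)) =
              (∑ i ∈ range (l + 1), e l i * ff i (((2 * k : ℕ) : ℝ))) / dq Q Q := by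
            rw [div_eq_div_iff hdq hd, mul_comm (dd k), ← h6]
            ring
          have h8 : ∀ x : ℝ, (r.choose l : ℝ) * p r * (dd k * ν ^ (2 * k) / μ * x) /
              dq Q (k + (Q - l)) * T ^ (2 * (k + (Q - l))) =
              (r.choose l : ℝ) * p r / (dq Q Q * μ) * T ^ (2 * (Q - l)) *
                (∑ i ∈ range (l + 1), e l i * ff i (((2 * k : ℕ) : ℝ))) * x *
                  (ν * T) ^ (2 * k) := by
            intro x
            rw [mul_add 2 k (Q - l), pow_add, mul_pow]
            calc (r.choose l : ℝ) * p r * (dd k * ν ^ (2 * k) / μ * x) /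
                dq Q (k + (Q - l)) * (T ^ (2 * k) * T ^ (2 * (Q - l))) =
                (r.choose l : ℝ) * p r / μ * ν ^ (2 * k) * x * T ^ (2 * k) * T ^ (2 * (Q - l)) *
                  (dd k / dq Q (k + (Q - l))) := by ring
              _ = _ := by
                rw [h7]
                field_simp
          rw [h8, mul_sum, sum_mul]
          refine Eq.trans ?_ sum_comm
          refine sum_congr rfl fun a _ => ?_
          rw [mul_sum, sum_mul, sum_mul]
          refine sum_congr rfl fun b _ => ?_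
          ring
        rw [e3]
        exact h2
    have h9 := hasSum_sum (s := range (Q + 1)) fun r hr => hasSum_sum (s := range (r + 1))
      fun l hl => h1 r l (by rw [mem_range] at hr; omega) (by rw [mem_range] at hl; omega)
    have e4 : (fun s : ℕ => ee p Q g μ ν s / dq Q s * T ^ (2 * s)) = fun s : ℕ =>
        ∑ r ∈ range (Q + 1), ∑ l ∈ range (r + 1),
        (if Q ≤ s + l then (r.choose l : ℝ) * p r * DD g μ ν (s + l - Q) (r - l) else 0) /
          dq Q s * T ^ (2 * s) := by
      funext s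
      unfold ee
      rw [sum_div, sum_mul]
      refine sum_congr rfl fun r _ => ?_
      rw [sum_div, sum_mul]
    rw [e4]
    exact h9

end Pool.Agent.Zk11.LN
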